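import Pool.Agent.W312.WT.Stm

set_option autoImplicit false

/-! WT-SCpl: the completion time is attained -/

namespace Pool.Agent.W637.WT

open Pool.Agent.W312.WT

theorem proof_SCpl : Pool.Agent.W312.WT.SCpl := by
  intro p n S j hp
  have hfin : ((fun q : Bool × ℝ × ℝ => q.2.2) '' (S.pieces j : Set (Bool × ℝ × ℝ))).Finite :=
    (S.pieces j).finite_toSet.image _
  have hne : (S.pieces j).Nonempty := by
    by_contra h
    rw [Finset.not_nonempty_iff_eq_empty] at h
    have h1 := S.total j
    rw [h, Finset.sum_empty] at h1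
    have h2 : (1 : ℝ) ≤ (p : ℝ) := by exact_mod_cast hp
    linarith
  have hne' : ((fun q : Bool × ℝ × ℝ => q.2.2) '' (S.pieces j : Set (Bool × ℝ × ℝ))).Nonempty :=
    (Finset.coe_nonempty.2 hne).image _
  constructor
  · obtain ⟨q, hq, h⟩ := hne'.csSup_mem hfin
    exact ⟨q, hq, h⟩
  · intro q hq
    exact le_csSup hfin.bddAbove ⟨q, hq, rfl⟩

end Pool.Agent.W637.WT
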